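import Pool.Agent.H11.LD.Targets

/-!
# Row LB of the board ldm_modules: the lower bound
-/

set_option autoImplicit false

open Finset Classical

namespace Pool.Agent.H68.LDM

open Pool.Agent.H9.Lap Pool.Agent.H11.LD

variable {V : Type} [Fintype V] {G : SimpleGraph V}

/-- a set of oriented edges -/
theorem ori_le (f : V → ℝ) (U : Finset (V × V)) (h1 : ∀ x ∈ U, G.Adj x.1 x.2)
    (h2 : ∀ x ∈ U, (x.2, x.1) ∉ U) : ∑ x ∈ U, (f x.1 - f x.2) ^ 2 ≤ qf G f := by
  have e : ∑ v, ∑ w ∈ nb G v, (f v - f w) ^ 2 =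
      ∑ x ∈ (univ : Finset (V × V)).filter (fun x => G.Adj x.1 x.2), (f x.1 - f x.2) ^ 2 := by
    rw [sum_filter, ← univ_product_univ, sum_product]
    refine sum_congr rfl fun v _ => ?_
    unfold nb
    rw [sum_filter]
  have hd : Disjoint U (U.image Prod.swap) := by
    rw [disjoint_left]
    intro x hx hx'
    rw [mem_image] at hx'
    obtain ⟨y, hy, rfl⟩ := hx'
    exact h2 y hy hx
  have hs : ∑ x ∈ U.image Prod.swap, (f x.1 - f x.2) ^ 2 = ∑ x ∈ U, (f x.1 - f x.2) ^ 2 := by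
    rw [sum_image (fun a _ b _ h => Prod.swap_injective h)]
    refine sum_congr rfl fun x _ => ?_
    show (f x.2 - f x.1) ^ 2 = _
    ring
  have hsub : U ∪ U.image Prod.swap ⊆
      (univ : Finset (V × V)).filter (fun x => G.Adj x.1 x.2) := by
    intro x hx
    rw [mem_filter]
    refine ⟨mem_univ _, ?_⟩
    rw [mem_union] at hx
    rcases hx with hx | hx
    · exact h1 x hx
    · rw [mem_image] at hx
      obtain ⟨y, hy, rfl⟩ := hx
      exact (h1 y hy).symm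
  have h3 := sum_le_sum_of_subset_of_nonneg (f := fun x : V × V => (f x.1 - f x.2) ^ 2) hsub
    (fun _ _ _ => sq_nonneg _)
  rw [sum_union hd, hs, ← e] at h3
  unfold qf
  linarith

/-- the leaves -/
noncomputable def Lf {g : ℕ} (p : V → Fin g) (c : Fin g → V) : Finset V :=
  univ.filter fun v => v ≠ c (p v)

theorem mem_Lf {g : ℕ} {p : V → Fin g} {c : Fin g → V} {v : V} : v ∈ Lf p c ↔ v ≠ c (p v) := by
  unfold Lf
  rw [mem_filter]
  exact ⟨fun h => h.2, fun h => ⟨mem_univ _, h⟩⟩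

theorem split {g : ℕ} {p : V → Fin g} {c : Fin g → V} (hpc : ∀ i, p (c i) = i) (F : V → ℝ) :
    ∑ v, F v = ∑ v ∈ Lf p c, F v + ∑ i, F (c i) := by
  have h := sum_filter_add_sum_filter_not univ (fun v => v ≠ c (p v)) F
  rw [← h]
  unfold Lf
  congr 1
  refine sum_nbij' p c ?_ ?_ ?_ ?_ ?_
  · intro v _
    exact mem_univ _
  · intro i _
    rw [mem_filter]
    refine ⟨mem_univ _, ?_⟩
    rw [hpc]
    exact fun h => h rfl
  · intro v hv
    rw [mem_filter, not_not] at hv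
    exact hv.2.symm
  · intro i _
    exact hpc i
  · intro v hv
    rw [mem_filter, not_not] at hv
    rw [← hv.2]

theorem fib {g m : ℕ} {p : V → Fin g} (hcard : ∀ i, (univ.filter fun v => p v = i).card = m)
    (h : Fin g → ℝ) : ∑ v, h (p v) = m * ∑ i, h i := by
  rw [← sum_fiberwise univ p (fun v => h (p v)), mul_sum]
  refine sum_congr rfl fun i _ => ?_
  rw [sum_congr rfl (g := fun _ => h i) (fun v hv => by rw [(mem_filter.1 hv).2]), sum_const,
    hcard, nsmul_eq_mul]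

/-- the stars and the edges of `E` -/
theorem qf_ge {g m : ℕ} {p : V → Fin g} {c : Fin g → V} {E : Finset (V × V)}
    {A s : Fin g → ℝ} (hC : Clu G g m p c) (hS : Sys G p E A s) (f : V → ℝ) :
    ∑ a ∈ Lf p c, (f (c (p a)) - f a) ^ 2 + ∑ e ∈ E, (f e.1 - f e.2) ^ 2 ≤ qf G f := by
  have hp : ∀ e ∈ E, p e.1 ≠ p e.2 := by
    intro e he h
    have h1 := hS.alt e he
    rw [h] at h1
    rcases hS.sg (p e.2) with h2 | h2 <;> rw [h2] at h1 <;> norm_num at h1
  have hd : Disjoint ((Lf p c).image fun a => (c (p a), a)) E := by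
    rw [disjoint_left]
    intro x hx hx'
    rw [mem_image] at hx
    obtain ⟨a, _, rfl⟩ := hx
    exact hp _ hx' (hC.pc _)
  have e1 : ∑ x ∈ (Lf p c).image (fun a => (c (p a), a)), (f x.1 - f x.2) ^ 2 =
      ∑ a ∈ Lf p c, (f (c (p a)) - f a) ^ 2 := by
    rw [sum_image]
    intro a _ b _ h
    exact congrArg Prod.snd h
  rw [← e1, ← sum_union hd]
  apply ori_le
  · intro x hx
    rw [mem_union] at hx
    rcases hx with hx | hx
    · rw [mem_image] at hx
      obtain ⟨a, ha, rfl⟩ := hx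
      exact hC.star a (mem_Lf.1 ha)
    · exact hS.adj x hx
  · intro x hx hx'
    rw [mem_union] at hx hx'
    rcases hx with hx | hx
    · rw [mem_image] at hx
      obtain ⟨a, ha, rfl⟩ := hx
      rcases hx' with hx' | hx'
      · rw [mem_image] at hx'
        obtain ⟨b, hb, hab⟩ := hx'
        have h1 : c (p b) = a := congrArg Prod.fst hab
        have h2 : p a = p b := by rw [← h1, hC.pc]
        exact mem_Lf.1 ha (by rw [h2, h1])
      · exact hp _ hx' (hC.pc _).symm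
    · rcases hx' with hx' | hx'
      · rw [mem_image] at hx'
        obtain ⟨b, hb, hab⟩ := hx'
        have h1 : c (p b) = x.2 := congrArg Prod.fst hab
        have h2 : b = x.1 := congrArg Prod.snd hab
        apply hp x hx
        rw [← h2, ← h1, hC.pc]
      · exact hS.ori x hx hx'

/-- the sum of the squares of the weights at a vertex -/
noncomputable def sq {g : ℕ} (p : V → Fin g) (E : Finset (V × V)) (A : Fin g → ℝ) (a : V) : ℝ :=
  ∑ e ∈ E.filter (fun e => e.1 = a ∨ e.2 = a), wt p A e ^ 2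

theorem sum_sq {g : ℕ} {p : V → Fin g} {E : Finset (V × V)} {A : Fin g → ℝ}
    (hne : ∀ e ∈ E, e.1 ≠ e.2) : ∑ a, sq p E A a = 2 * ∑ e ∈ E, wt p A e ^ 2 := by
  unfold sq
  have h1 : ∀ a : V, ∑ e ∈ E.filter (fun e => e.1 = a ∨ e.2 = a), wt p A e ^ 2 =
      ∑ e ∈ E, ((if e.1 = a then wt p A e ^ 2 else 0) + if e.2 = a then wt p A e ^ 2 else 0) := by
    intro a
    rw [sum_filter]
    refine sum_congr rfl fun e he => ?_
    have h := hne e he
    by_cases h1 : e.1 = a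
    · have h2 : e.2 ≠ a := fun h2 => h (h1.trans h2.symm)
      rw [if_pos (Or.inl h1), if_pos h1, if_neg h2, add_zero]
    · by_cases h2 : e.2 = a
      · rw [if_pos (Or.inr h2), if_neg h1, if_pos h2, zero_add]
      · rw [if_neg (fun h3 => h3.elim h1 h2), if_neg h1, if_neg h2, add_zero]
  rw [sum_congr rfl fun a _ => h1 a, sum_comm, mul_sum]
  refine sum_congr rfl fun e _ => ?_
  rw [sum_add_distrib, sum_ite_eq, sum_ite_eq, if_pos (mem_univ _), if_pos (mem_univ _)]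
  ring

theorem pf_LB : T_LB := by
  intro V _ G g m p c E A s μ hC hm hS hμ hU
  have hμ3 : 0 < μ - 3 := by linarith
  have hp : ∀ e ∈ E, p e.1 ≠ p e.2 := by
    intro e he h
    have h1 := hS.alt e he
    rw [h] at h1
    rcases hS.sg (p e.2) with h2 | h2 <;> rw [h2] at h1 <;> norm_num at h1
  have hne : ∀ e ∈ E, e.1 ≠ e.2 := fun e he h => hp e he (by rw [h])
  have hL1 : ∀ e ∈ E, e.1 ≠ c (p e.1) := by
    intro e he h
    have h1 := hS.adj e he
    rw [h] at h1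
    exact hp e he (hC.hub _ _ h1).symm
  have hL2 : ∀ e ∈ E, e.2 ≠ c (p e.2) := by
    intro e he h
    have h1 := (hS.adj e he).symm
    rw [h] at h1
    exact hp e he (hC.hub _ _ h1)
  have hss : ∀ i, s i ^ 2 = 1 := by
    intro i
    rcases hS.sg i with h | h <;> rw [h] <;> norm_num
  obtain ⟨r, hr⟩ : ∃ r : V → ℝ, ∀ a, r a = Real.sqrt (sq p E A a) / (μ - 3) := ⟨_, fun _ => rfl⟩
  have hsq0 : ∀ a, 0 ≤ sq p E A a := fun a => sum_nonneg fun _ _ => sq_nonneg _
  have hr2 : ∀ a, r a ^ 2 = sq p E A a / (μ - 3) ^ 2 := by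
    intro a
    rw [hr, div_pow, Real.sq_sqrt (hsq0 a)]
  have hwt0 : ∀ e, 0 ≤ wt p A e := fun e => add_nonneg (hS.nn _) (hS.nn _)
  have hrw : ∀ e ∈ E, ∀ a, (e.1 = a ∨ e.2 = a) → wt p A e / (μ - 3) ≤ r a := by
    intro e he a ha
    rw [hr]
    apply div_le_div_of_nonneg_right _ hμ3.le
    apply Real.le_sqrt_of_sq_le
    unfold sq
    exact single_le_sum (f := fun e => wt p A e ^ 2) (fun _ _ => sq_nonneg _)
      (mem_filter.2 ⟨he, ha⟩)
  -- the test function
  obtain ⟨f, hf⟩ : ∃ f : V → ℝ, ∀ v, f v = if v = c (p v) then (μ - 1) * s (p v) * A (p v)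
      else -(s (p v) * (A (p v) + r v)) := ⟨_, fun _ => rfl⟩
  have hfc : ∀ i, f (c i) = (μ - 1) * s i * A i := by
    intro i
    rw [hf, hC.pc, if_pos rfl]
  have hfl : ∀ v, v ≠ c (p v) → f v = -(s (p v) * (A (p v) + r v)) := by
    intro v hv
    rw [hf, if_neg hv]
  have h1 := qf_ge hC hS f
  have h2 := hU f
  rw [split hC.pc (fun v => f v ^ 2)] at h2
  -- leaves
  have h3 : ∑ a ∈ Lf p c, (f (c (p a)) - f a) ^ 2 - μ * ∑ a ∈ Lf p c, f a ^ 2 =
      μ * (μ - 1) * ∑ a ∈ Lf p c, A (p a) ^ 2 - (μ - 1) * ∑ a ∈ Lf p c, r a ^ 2 := by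
    rw [mul_sum, mul_sum, mul_sum, ← sum_sub_distrib, ← sum_sub_distrib]
    refine sum_congr rfl fun a ha => ?_
    rw [hfc, hfl a (mem_Lf.1 ha)]
    have e1 : ((μ - 1) * s (p a) * A (p a) - -(s (p a) * (A (p a) + r a))) ^ 2 =
        s (p a) ^ 2 * (μ * A (p a) + r a) ^ 2 := by ring
    have e2 : (-(s (p a) * (A (p a) + r a))) ^ 2 = s (p a) ^ 2 * (A (p a) + r a) ^ 2 := by ring
    rw [e1, e2, hss]
    ring
  have h4 : ∑ a ∈ Lf p c, A (p a) ^ 2 = (m - 1) * ∑ i, A i ^ 2 := by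
    have h5 := fib hC.card (fun i => A i ^ 2)
    rw [split hC.pc (fun v => A (p v) ^ 2)] at h5
    have h6 : ∑ i, A (p (c i)) ^ 2 = ∑ i, A i ^ 2 := sum_congr rfl fun i _ => by rw [hC.pc]
    rw [h6] at h5
    linarith
  have h5 : ∑ i, f (c i) ^ 2 = (μ - 1) ^ 2 * ∑ i, A i ^ 2 := by
    rw [mul_sum]
    refine sum_congr rfl fun i _ => ?_
    rw [hfc, mul_pow, mul_pow, hss, mul_one]
  have h6 : ∑ a ∈ Lf p c, r a ^ 2 ≤ 2 * (∑ e ∈ E, wt p A e ^ 2) / (μ - 3) ^ 2 := by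
    calc ∑ a ∈ Lf p c, r a ^ 2 ≤ ∑ a, r a ^ 2 :=
          sum_le_sum_of_subset_of_nonneg (subset_univ _) fun _ _ _ => sq_nonneg _
      _ = (∑ a, sq p E A a) / (μ - 3) ^ 2 := by
          rw [sum_div]
          exact sum_congr rfl fun a _ => hr2 a
      _ = _ := by rw [sum_sq hne]
  have h7 : ((μ - 1) / (μ - 3)) ^ 2 * ∑ e ∈ E, wt p A e ^ 2 ≤ ∑ e ∈ E, (f e.1 - f e.2) ^ 2 := by
    rw [mul_sum]
    refine sum_le_sum fun e he => ?_
    rw [hfl e.1 (hL1 e he), hfl e.2 (hL2 e he), hS.alt e he]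
    have e1 : (-(-s (p e.2) * (A (p e.1) + r e.1)) - -(s (p e.2) * (A (p e.2) + r e.2))) ^ 2 =
        s (p e.2) ^ 2 * (wt p A e + (r e.1 + r e.2)) ^ 2 := by
      unfold wt
      ring
    rw [e1, hss, one_mul, ← mul_pow]
    apply pow_le_pow_left₀
    · exact mul_nonneg (div_nonneg (by linarith) hμ3.le) (hwt0 e)
    · have h8 := hrw e he e.1 (Or.inl rfl)
      have h9 := hrw e he e.2 (Or.inr rfl)
      have e2 : (μ - 1) / (μ - 3) * wt p A e = wt p A e + 2 * (wt p A e / (μ - 3)) := by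
        field_simp
        ring
      rw [e2]
      linarith
  set W := ∑ e ∈ E, wt p A e ^ 2 with hW
  set S := ∑ i, A i ^ 2 with hSdef
  have h8 : ((μ - 1) / (μ - 3)) ^ 2 * W - (μ - 1) * (2 * W / (μ - 3) ^ 2) ≤
      μ * (μ - 1) * (μ - m) * S := by
    have h9 := mul_le_mul_of_nonneg_left h6 (show 0 ≤ μ - 1 by linarith)
    rw [h5] at h2
    rw [h4] at h3
    nlinarith [h1, h2, h3, h7, h9]
  have h9 : ((μ - 1) / (μ - 3)) ^ 2 * W - (μ - 1) * (2 * W / (μ - 3) ^ 2) =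
      (μ - 1) * (W / (μ - 3)) := by
    field_simp
    ring
  rw [h9] at h8
  have h10 : W / (μ - 3) ≤ μ * (μ - m) * S := by
    have h11 : (μ - 1) * (W / (μ - 3)) ≤ (μ - 1) * (μ * (μ - m) * S) := by
      linarith
    exact le_of_mul_le_mul_left h11 (by linarith)
  rw [div_le_iff₀ hμ3] at h10
  linarith

end Pool.Agent.H68.LDM
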